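import Mathlib

/-!
# RS: the Fejer kernel as a cosine sum
-/

open Finset Complex

namespace H72.RS

/-- One step of the square of a geometric sum. -/
theorem geom_step (N : ℕ) (u : ℝ) :
    ‖∑ n ∈ range (N + 1), Complex.exp (2 * Real.pi * I * (n * u : ℝ))‖ ^ 2 =
      ‖∑ n ∈ range N, Complex.exp (2 * Real.pi * I * (n * u : ℝ))‖ ^ 2 + 1 +
        2 * ∑ m ∈ Ico 1 (N + 1), Real.cos (2 * Real.pi * (m * u)) := by
  rw [Finset.sum_range_succ]
  set S := ∑ n ∈ range N, Complex.exp (2 * Real.pi * I * (n * u : ℝ)) with hS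
  set z := Complex.exp (2 * Real.pi * I * (N * u : ℝ)) with hz
  have hz1 : ‖z‖ = 1 := by
    rw [hz]
    have : (2 * Real.pi * I * (N * u : ℝ) : ℂ) = ((2 * Real.pi * (N * u) : ℝ) : ℂ) * I := by
      push_cast; ring
    rw [this, Complex.norm_exp_ofReal_mul_I]
  have h1 : ‖S + z‖ ^ 2 = ‖S‖ ^ 2 + ‖z‖ ^ 2 + 2 * (S * (starRingEnd ℂ) z).re := by
    rw [← Complex.normSq_eq_norm_sq, ← Complex.normSq_eq_norm_sq, ← Complex.normSq_eq_norm_sq,
      Complex.normSq_add]
  rw [h1, hz1]
  have h2 : (S * (starRingEnd ℂ) z).re = ∑ m ∈ Ico 1 (N + 1), Real.cos (2 * Real.pi * (m * u)) := by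
    rw [hS, Finset.sum_mul, Complex.re_sum]
    have h3 : ∀ n ∈ range N,
        (Complex.exp (2 * Real.pi * I * (n * u : ℝ)) * (starRingEnd ℂ) z).re =
          Real.cos (2 * Real.pi * ((N - n : ℕ) * u)) := by
      intro n hn
      have hn' : n ≤ N := (Finset.mem_range.mp hn).le
      rw [hz, ← Complex.exp_conj, ← Complex.exp_add]
      have : (2 * Real.pi * I * (n * u : ℝ) : ℂ) +
          (starRingEnd ℂ) (2 * Real.pi * I * (N * u : ℝ)) =
          ((-(2 * Real.pi * ((N - n : ℕ) * u)) : ℝ) : ℂ) * I := by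
        have hc : (starRingEnd ℂ) (2 * Real.pi * I * (N * u : ℝ) : ℂ) =
            -(2 * Real.pi * I * (N * u : ℝ)) := by
          simp only [map_mul, Complex.conj_ofReal, Complex.conj_I, map_ofNat]
          ring
        rw [hc]
        rw [Nat.cast_sub hn']
        push_cast
        ring
      rw [this, Complex.exp_ofReal_mul_I_re, Real.cos_neg]
    rw [Finset.sum_congr rfl h3]
    rw [Finset.sum_Ico_eq_sum_range]
    simp only [Nat.add_sub_cancel]
    rw [← Finset.sum_range_reflect]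
    apply Finset.sum_congr rfl
    intro n hn
    have hn' := Finset.mem_range.mp hn
    have : N - (N - 1 - n) = 1 + n := by omega
    rw [this]
  rw [h2]
  ring

/-- The square of a geometric sum is `N` times the Fejer kernel of order `N`. -/
theorem fejer (N : ℕ) (u : ℝ) :
    ‖∑ n ∈ range N, Complex.exp (2 * Real.pi * I * (n * u : ℝ))‖ ^ 2 =
      N + 2 * ∑ m ∈ Ico 1 N, ((N : ℝ) - m) * Real.cos (2 * Real.pi * (m * u)) := by
  induction N with
  | zero => simp
  | succ N ih =>
    rw [geom_step, ih]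
    rcases Nat.eq_zero_or_pos N with h0 | h0
    · subst h0; simp
    · rw [Finset.sum_Ico_succ_top (by omega : 1 ≤ N), Finset.sum_Ico_succ_top (by omega : 1 ≤ N)]
      have : ∑ m ∈ Ico 1 N, (((N + 1 : ℕ) : ℝ) - m) * Real.cos (2 * Real.pi * (m * u)) =
          ∑ m ∈ Ico 1 N, ((N : ℝ) - m) * Real.cos (2 * Real.pi * (m * u)) +
            ∑ m ∈ Ico 1 N, Real.cos (2 * Real.pi * (m * u)) := by
        rw [← Finset.sum_add_distrib]
        apply Finset.sum_congr rfl
        intro m _
        push_cast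
        ring
      rw [this]
      push_cast
      ring

end H72.RS
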