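import Mathlib

/-!
# RS: the function R / (1 + R ||u||) is at most a sum of Fejer kernels
-/

open Finset Complex

namespace H72.RS

/-- For `N * |v| ≤ 1/8` the geometric sum of `e(n v)`, `n < N`, is at least `N/2` in absolute
value. -/
theorem geom_low (N : ℕ) (v : ℝ) (h : (N : ℝ) * |v| ≤ 1 / 8) :
    (N : ℝ) / 2 ≤ ‖∑ n ∈ range N, Complex.exp (2 * Real.pi * I * (n * v : ℝ))‖ := by
  have h1 : (N : ℝ) / 2 ≤ (∑ n ∈ range N, Complex.exp (2 * Real.pi * I * (n * v : ℝ))).re := by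
    rw [Complex.re_sum]
    have : ∀ n ∈ range N, (1 : ℝ) / 2 ≤ (Complex.exp (2 * Real.pi * I * (n * v : ℝ))).re := by
      intro n hn
      have hn' : (n : ℝ) ≤ N := by
        have := (Finset.mem_range.mp hn).le
        exact_mod_cast this
      have e1 : (2 * Real.pi * I * (n * v : ℝ) : ℂ) = ((2 * Real.pi * (n * v) : ℝ) : ℂ) * I := by
        push_cast; ring
      rw [e1, Complex.exp_ofReal_mul_I_re]
      have hx : |2 * Real.pi * (n * v)| ≤ Real.pi / 4 := by
        rw [abs_mul, abs_of_nonneg (by positivity : (0 : ℝ) ≤ 2 * Real.pi), abs_mul,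
          abs_of_nonneg (by positivity : (0 : ℝ) ≤ (n : ℝ))]
        have : (n : ℝ) * |v| ≤ 1 / 8 := le_trans (by gcongr) h
        nlinarith [Real.pi_pos]
      have hpi : Real.pi / 4 ≤ 0.8 := by
        have := Real.pi_lt_d2
        norm_num at this ⊢
        linarith
      have hx2 : (2 * Real.pi * (n * v)) ^ 2 ≤ 0.64 := by
        have h2 : |2 * Real.pi * (n * v)| ≤ 0.8 := le_trans hx hpi
        rw [← sq_abs]
        have h3 : 0 ≤ |2 * Real.pi * (n * v)| := abs_nonneg _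
        nlinarith
      have := Real.one_sub_sq_div_two_le_cos (x := 2 * Real.pi * (n * v))
      linarith
    calc (N : ℝ) / 2 = ∑ n ∈ range N, (1 : ℝ) / 2 := by
          rw [Finset.sum_const, Finset.card_range]; simp; ring
      _ ≤ _ := Finset.sum_le_sum this
  exact le_trans h1 (Complex.re_le_norm _)

/-- The exponential sum does not change when `u` is moved by an integer. -/
theorem geom_shift (N : ℕ) (u : ℝ) (m : ℤ) :
    ∑ n ∈ range N, Complex.exp (2 * Real.pi * I * (n * u : ℝ)) =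
      ∑ n ∈ range N, Complex.exp (2 * Real.pi * I * (n * (u - m) : ℝ)) := by
  apply Finset.sum_congr rfl
  intro n _
  have : (2 * Real.pi * I * (n * u : ℝ) : ℂ) =
      2 * Real.pi * I * (n * (u - m) : ℝ) + ((n * m : ℤ) : ℂ) * (2 * Real.pi * I) := by
    push_cast; ring
  rw [this, Complex.exp_add, Complex.exp_int_mul_two_pi_mul_I, mul_one]

/-- **Fj**: `R / (1 + R ||u||)` is at most 64 times a sum of Fejer kernels of orders `2^k ≤ 2 R`. -/
theorem fj0 (R : ℕ) (hR : 1 ≤ R) (u : ℝ) :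
    (R : ℝ) / (1 + R * |u - round u|) ≤
      64 * ∑ k ∈ range (Nat.log 2 (2 * R) + 1), (1 / (2 : ℝ) ^ k) *
        ‖∑ n ∈ range (2 ^ k), Complex.exp (2 * Real.pi * I * (n * u : ℝ))‖ ^ 2 := by
  set v : ℝ := u - round u with hv
  have hv2 : |v| ≤ 1 / 2 := abs_sub_round u
  have hv0 : 0 ≤ |v| := abs_nonneg v
  have hR' : (1 : ℝ) ≤ R := by exact_mod_cast hR
  -- one `k` is enough
  have key : ∀ k ∈ range (Nat.log 2 (2 * R) + 1),
      (1 / (2 : ℝ) ^ k) *
        ‖∑ n ∈ range (2 ^ k), Complex.exp (2 * Real.pi * I * (n * u : ℝ))‖ ^ 2 ≤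
      ∑ k ∈ range (Nat.log 2 (2 * R) + 1), (1 / (2 : ℝ) ^ k) *
        ‖∑ n ∈ range (2 ^ k), Complex.exp (2 * Real.pi * I * (n * u : ℝ))‖ ^ 2 := by
    intro k hk
    exact Finset.single_le_sum (f := fun k => (1 / (2 : ℝ) ^ k) *
        ‖∑ n ∈ range (2 ^ k), Complex.exp (2 * Real.pi * I * (n * u : ℝ))‖ ^ 2)
      (fun i _ => by positivity) hk
  -- the good `k`
  have good : ∀ k : ℕ, ((2 : ℝ) ^ k) * |v| ≤ 1 / 8 →
      (2 : ℝ) ^ k / 4 ≤ (1 / (2 : ℝ) ^ k) *
        ‖∑ n ∈ range (2 ^ k), Complex.exp (2 * Real.pi * I * (n * u : ℝ))‖ ^ 2 := by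
    intro k hk
    have h1 := geom_low (2 ^ k) v (by push_cast; exact hk)
    rw [geom_shift _ u (round u)]
    have e : (fun n : ℕ => Complex.exp (2 * Real.pi * I * (n * (u - round u) : ℝ))) =
        (fun n : ℕ => Complex.exp (2 * Real.pi * I * (n * v : ℝ))) := by
      funext n; rw [hv]
    push_cast at h1
    have hp : (0 : ℝ) < 2 ^ k := by positivity
    have h2 : ((2 : ℝ) ^ k / 2) ^ 2 ≤
        ‖∑ n ∈ range (2 ^ k), Complex.exp (2 * Real.pi * I * (n * (u - round u) : ℝ))‖ ^ 2 := by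
      apply pow_le_pow_left₀ (by positivity)
      have e2 := congrArg (fun F : ℕ → ℂ => ‖∑ n ∈ range (2 ^ k), F n‖) e
      rw [e2]
      push_cast
      exact h1
    calc (2 : ℝ) ^ k / 4 = (1 / (2 : ℝ) ^ k) * ((2 : ℝ) ^ k / 2) ^ 2 := by
          field_simp; norm_num
      _ ≤ _ := by gcongr
  have zero_good : (1 : ℝ) ≤ (1 / (2 : ℝ) ^ 0) *
        ‖∑ n ∈ range (2 ^ 0), Complex.exp (2 * Real.pi * I * (n * u : ℝ))‖ ^ 2 := by
    simp
  set S := ∑ k ∈ range (Nat.log 2 (2 * R) + 1), (1 / (2 : ℝ) ^ k) *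
        ‖∑ n ∈ range (2 ^ k), Complex.exp (2 * Real.pi * I * (n * u : ℝ))‖ ^ 2 with hS
  have hS1 : (1 : ℝ) ≤ S := le_trans zero_good (key 0 (by simp))
  -- trivial bounds of the left side
  have lhs1 : (R : ℝ) / (1 + R * |v|) ≤ R := by
    apply div_le_self (by positivity)
    have : 0 ≤ (R : ℝ) * |v| := by positivity
    linarith
  have lhs2 : ∀ c : ℝ, 0 < c → c ≤ |v| → (R : ℝ) / (1 + R * |v|) ≤ 1 / c := by
    intro c hc hcv
    rw [div_le_div_iff₀ (by positivity) hc]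
    have : (R : ℝ) * c ≤ R * |v| := by gcongr
    linarith
  -- first case: `|v|` large
  by_cases h8 : (1 : ℝ) / 16 < |v|
  · have := lhs2 (1 / 16) (by norm_num) h8.le
    norm_num at this
    linarith
  push Not at h8
  -- the largest `k ≤ log2 (2R)` with `2^k |v| ≤ 1/8`
  set L := Nat.log 2 (2 * R) with hL
  have hLle : 2 ^ L ≤ 2 * R := Nat.pow_log_le_self 2 (by omega)
  have hLlt : 2 * R < 2 ^ (L + 1) := Nat.lt_pow_succ_log_self (by norm_num) _
  have hLR : (R : ℝ) ≤ 2 ^ L := by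
    have : R < 2 ^ L := by
      rw [pow_succ] at hLlt; omega
    exact_mod_cast this.le
  by_cases hall : (2 : ℝ) ^ L * |v| ≤ 1 / 8
  · have h1 := good L hall
    have h2 := key L (by simp [hL])
    calc (R : ℝ) / (1 + R * |v|) ≤ R := lhs1
      _ ≤ 2 ^ L := hLR
      _ ≤ 64 * ((2 : ℝ) ^ L / 4) := by
          have : (0 : ℝ) < 2 ^ L := by positivity
          linarith
      _ ≤ 64 * S := by gcongr; exact le_trans h1 h2
  · -- find `k < L` with `2^k |v| ≤ 1/8 < 2^(k+1) |v|`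
    have hex : ∃ k, ¬ ((2 : ℝ) ^ k * |v| ≤ 1 / 8) := ⟨L, hall⟩
    classical
    have hk1 := Nat.find_spec hex
    have hk2 : ∀ m, m < Nat.find hex → ((2 : ℝ) ^ m * |v| ≤ 1 / 8) := by
      intro m hm
      have := Nat.find_min hex hm
      push Not at this
      exact this
    have hk0 : Nat.find hex ≠ 0 := by
      intro h0
      rw [h0] at hk1
      apply hk1
      rw [pow_zero, one_mul]
      linarith
    obtain ⟨k, hk⟩ := Nat.exists_eq_succ_of_ne_zero hk0
    have hkL : Nat.find hex ≤ L := Nat.find_min' hex hall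
    rw [hk] at hk1 hk2 hkL
    have hka := hk2 k (Nat.lt_succ_self k)
    push Not at hk1
    have h1 := good k hka
    have h2 := key k (by simp; omega)
    have h3 : 1 / (16 * (2 : ℝ) ^ k) ≤ |v| := by
      rw [div_le_iff₀ (by positivity)]
      have : (2 : ℝ) ^ (k + 1) * |v| = 2 * (2 ^ k * |v|) := by rw [pow_succ]; ring
      have h4 : (1 : ℝ) / 8 < 2 ^ (k + 1) * |v| := hk1
      rw [this] at h4
      have h5 : |v| * (16 * (2 : ℝ) ^ k) = 8 * (2 * (2 ^ k * |v|)) := by ring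
      rw [h5]
      have h6 := mul_le_mul_of_nonneg_left h4.le (by norm_num : (0 : ℝ) ≤ 8)
      norm_num at h6
      exact h6
    calc (R : ℝ) / (1 + R * |v|) ≤ 1 / (1 / (16 * (2 : ℝ) ^ k)) := lhs2 _ (by positivity) h3
      _ = 16 * 2 ^ k := by rw [one_div_one_div]
      _ = 64 * ((2 : ℝ) ^ k / 4) := by ring
      _ ≤ 64 * S := by gcongr; exact le_trans h1 h2

end H72.RS
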