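import Mathlib
import Pool.Agent.H72.RS.Fj0
import Pool.Agent.H72.RS.Fej

/-!
# RS: weighted sums of R / (1 + R ||u||) are at most sums of cosine sums
-/

open Finset Complex

namespace H72.RS

/-- `fj0` with the Fejer kernels written as cosine sums. -/
theorem fj1 (R : ℕ) (hR : 1 ≤ R) (u : ℝ) :
    (R : ℝ) / (1 + R * |u - round u|) ≤
      64 * ∑ k ∈ range (Nat.log 2 (2 * R) + 1),
        (1 + 2 * ∑ m ∈ Ico (1 : ℕ) (2 ^ k), (1 - (m : ℝ) / 2 ^ k) * Real.cos (2 * Real.pi * (m * u))) := by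
  refine le_trans (fj0 R hR u) (le_of_eq ?_)
  congr 1
  apply Finset.sum_congr rfl
  intro k _
  rw [fejer]
  have hp : (2 : ℝ) ^ k ≠ 0 := by positivity
  push_cast
  rw [mul_add, one_div, inv_mul_cancel₀ hp]
  congr 1
  rw [mul_left_comm, Finset.mul_sum]
  congr 1
  apply Finset.sum_congr rfl
  intro m _
  field_simp

/-- Weighted form of `fj1`. -/
theorem fjsum {ι : Type*} (R : ℕ) (hR : 1 ≤ R) (W u : ι → ℝ) (hW : ∀ j, 0 ≤ W j)
    (hs : Summable W) :
    ∑' j, W j * ((R : ℝ) / (1 + R * |u j - round (u j)|)) ≤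
      64 * ∑ k ∈ range (Nat.log 2 (2 * R) + 1),
        (∑' j, W j + 2 * ∑ m ∈ Ico (1 : ℕ) (2 ^ k), (1 - (m : ℝ) / 2 ^ k) *
          ∑' j, W j * Real.cos (2 * Real.pi * (m * u j))) := by
  have hcos : ∀ m : ℕ, Summable fun j => W j * Real.cos (2 * Real.pi * (m * u j)) := by
    intro m
    apply Summable.of_norm_bounded hs
    intro j
    rw [Real.norm_eq_abs, abs_mul, abs_of_nonneg (hW j)]
    have := Real.abs_cos_le_one (2 * Real.pi * (m * u j))
    nlinarith [hW j]
  have hl : Summable fun j => W j * ((R : ℝ) / (1 + R * |u j - round (u j)|)) := by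
    apply Summable.of_nonneg_of_le (g := fun j => W j * ((R : ℝ) / (1 + R * |u j - round (u j)|)))
      (f := fun j => W j * R) ?_ ?_ (hs.mul_right _)
    · intro j
      have := hW j
      positivity
    · intro j
      have h1 : (R : ℝ) / (1 + R * |u j - round (u j)|) ≤ R := by
        apply div_le_self (by positivity)
        have : 0 ≤ (R : ℝ) * |u j - round (u j)| := by positivity
        linarith
      exact mul_le_mul_of_nonneg_left h1 (hW j)
  have hr : ∀ k ∈ range (Nat.log 2 (2 * R) + 1), HasSum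
      (fun j => W j * (1 + 2 * ∑ m ∈ Ico (1 : ℕ) (2 ^ k), (1 - (m : ℝ) / 2 ^ k) *
        Real.cos (2 * Real.pi * (m * u j))))
      (∑' j, W j + 2 * ∑ m ∈ Ico (1 : ℕ) (2 ^ k), (1 - (m : ℝ) / 2 ^ k) *
          ∑' j, W j * Real.cos (2 * Real.pi * (m * u j))) := by
    intro k _
    have h1 : HasSum (fun j => ∑ m ∈ Ico (1 : ℕ) (2 ^ k), (1 - (m : ℝ) / 2 ^ k) *
        (W j * Real.cos (2 * Real.pi * (m * u j))))
        (∑ m ∈ Ico (1 : ℕ) (2 ^ k), (1 - (m : ℝ) / 2 ^ k) *
          ∑' j, W j * Real.cos (2 * Real.pi * (m * u j))) := by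
      apply hasSum_sum
      intro m _
      exact (hcos m).hasSum.mul_left _
    have h2 := hs.hasSum.add (h1.mul_left 2)
    refine h2.congr_fun ?_ |> fun h => h
    intro j
    rw [mul_add, mul_one, mul_left_comm, Finset.mul_sum]
    congr 2
    apply Finset.sum_congr rfl
    intro m _
    ring
  have hR2 := (hasSum_sum hr).mul_left 64
  refine hasSum_le ?_ hl.hasSum hR2
  intro j
  rw [← Finset.mul_sum, mul_left_comm]
  exact mul_le_mul_of_nonneg_left (fj1 R hR (u j)) (hW j)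

end H72.RS
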